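import Pool.Agent.W900.SQ.Plant

/-!
# Any unbounded number of additional strings suffices
-/

set_option autoImplicit false

namespace Pool.Agent.W900.SQ

open MeasureTheory Filter Pool.Agent.NPC Pool.Agent.H628R3.RO Pool.Agent.H943R5.GC
open Pool.Agent.H543R3.PC (HasNPC HasUP HasDNP HasDCoNP HasTFNP HasOpt HasPOptT HasPOptS)
open Pool.Agent.W900.SP (join Sub ZZ YY_cons mem_ZZ_of_YY VerySparse Hard Inv)

theorem exists_act (v : List Bool) : ∃ s, act v s := by
  refine ⟨2 ^ (TT v.length + 1), ?_⟩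
  unfold act
  have h1 := (U5.length_st (2 ^ (TT v.length + 1))).2
  have h2 : 2 ^ (TT v.length + 1) < 2 ^ ((st (2 ^ (TT v.length + 1))).length + 1) := by omega
  have h3 := (Nat.pow_lt_pow_iff_right (by norm_num : 1 < 2)).1 h2
  omega

theorem exists_schedule {g : ℕ → ℕ} (hg : Tendsto g atTop atTop) :
    ∃ ρ : List Bool → ℕ, (∀ v, act v (ρ v)) ∧
      ∀ v n, TT (ρ v) ≤ n + 1 → 2 * (Pool.Agent.H583R2.idx v + 1) ≤ g n := by
  have h1 : ∀ v : List Bool, ∃ s, act v s ∧ ∀ n, s ≤ n →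
      2 * (Pool.Agent.H583R2.idx v + 1) ≤ g n := by
    intro v
    obtain ⟨s, hs⟩ := exists_act v
    obtain ⟨N, hN⟩ := eventually_atTop.1 (hg.eventually_ge_atTop
      (2 * (Pool.Agent.H583R2.idx v + 1)))
    exact ⟨max s N, act_mono (le_max_left _ _) hs, fun n hn => hN n (le_trans (le_max_right _ _) hn)⟩
  choose ρ h2 h3 using h1
  refine ⟨ρ, h2, fun v n hn => h3 v n ?_⟩
  have := le_TT (ρ v)
  omega

theorem kl_unique {ρ : List Bool → ℕ} {A : Oracle} {v : List Bool} {s s' : ℕ}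
    (h : kl ρ A v s) (h' : kl ρ A v s') : s = s' := by
  rcases lt_trichotomy s s' with h1 | h1 | h1
  · exact absurd h.2.1 (h'.2.2 s h1 h.1)
  · exact h1
  · exact absurd h'.2.1 (h.2.2 s' h1 h'.1)

theorem exists_T2 {K : ℕ} (hK : Loc K Bad) (O : Oracle) {g : ℕ → ℕ}
    (hg : Tendsto g atTop atTop) : ∃ T : Oracle, (∀ q, T q = true → q ∈ ZZ K) ∧
      (∀ n, {q | T q = true ∧ q.length ≤ n}.Finite ∧
        {q | T q = true ∧ q.length ≤ n}.ncard ≤ g n) ∧
      ∃ G, Gd (join O T) G := by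
  classical
  obtain ⟨ρ, h1, h2⟩ := exists_schedule hg
  obtain ⟨T, h3, h4⟩ := exists_pl hK h1 O
  refine ⟨T, ?_, ?_, _, gd_of_pl h1 h3⟩
  · intro q hq
    rcases h4 q hq with ⟨v, s, h5, h6⟩ | ⟨v, h5⟩
    · exact mem_ZZ_of_YY (act_mono h6.1 (h1 v)) (by have := two_le_LL v s; omega) h5.symm
    · exact mem_ZZ_of_YY (h1 v) (by have := two_le_LL v (ρ v); omega) h5.symm
  · intro n
    obtain ⟨κ, hκ⟩ : ∃ κ : List Bool → ℕ, ∀ v s, kl ρ (join O T) v s → κ v = s := by
      refine ⟨fun v => if h : ∃ s, kl ρ (join O T) v s then h.choose else 0, fun v s hs => ?_⟩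
      have h5 : ∃ s, kl ρ (join O T) v s := ⟨s, hs⟩
      show dite _ _ _ = s
      rw [dif_pos h5]
      exact kl_unique h5.choose_spec hs
    obtain ⟨F, hF⟩ : ∃ F : ℕ × Bool → List Bool, F = fun c => if c.2 = true then
      (YY K (st c.1) (κ (st c.1)) 0).tail else (YY K (st c.1) (ρ (st c.1)) 1).tail := ⟨_, rfl⟩
    have hsub : {q | T q = true ∧ q.length ≤ n} ⊆
        (((Finset.range (g n / 2)) ×ˢ (Finset.univ : Finset Bool)).image F : Set (List Bool)) := by
      rintro q ⟨hq, hn⟩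
      rw [Finset.coe_image]
      have hst : ∀ v : List Bool, st (Pool.Agent.H583R2.idx v) = v := fun v =>
        Pool.Agent.H583R2.str_idx v
      have key : ∀ v s i, true :: q = YY K v s i → ρ v ≤ s →
          Pool.Agent.H583R2.idx v < g n / 2 := by
        intro v s i h5 h6
        have h7 := N2.le_length_YY K v s i
        rw [← h5, List.length_cons] at h7
        have h8 : TT (ρ v) ≤ TT (s + K) := N2.TT_mono (by omega)
        have h9 := h2 v n (by omega)
        omega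
      rcases h4 q hq with ⟨v, s, h5, h6⟩ | ⟨v, h5⟩
      · refine ⟨(Pool.Agent.H583R2.idx v, true), ?_, ?_⟩
        · rw [Finset.mem_coe, Finset.mem_product, Finset.mem_range]
          exact ⟨key v s 0 h5 h6.1, Finset.mem_univ _⟩
        · rw [hF]
          dsimp only
          rw [if_pos rfl, hst, hκ v s h6, ← h5, List.tail_cons]
      · refine ⟨(Pool.Agent.H583R2.idx v, false), ?_, ?_⟩
        · rw [Finset.mem_coe, Finset.mem_product, Finset.mem_range]
          exact ⟨key v _ 1 h5 le_rfl, Finset.mem_univ _⟩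
        · rw [hF]
          dsimp only
          rw [if_neg (by simp), hst, ← h5, List.tail_cons]
    refine ⟨(Finset.finite_toSet _).subset hsub, ?_⟩
    refine (Set.ncard_le_ncard hsub (Finset.finite_toSet _)).trans ?_
    rw [Set.ncard_coe_finset]
    refine Finset.card_image_le.trans ?_
    rw [Finset.card_product, Finset.card_range, Finset.card_univ, Fintype.card_bool]
    omega

/-- The statement: there is one very sparse set `Z` such that subsets `T` of `Z` with arbitrarily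
few strings repair all oracles; almost every oracle needs to be repaired, no finite set suffices,
and the subsets of `Z` do not affect hardness. -/
def Stmt2 (X : Oracle → Prop) : Prop :=
  ∃ Z : Set (List Bool), VerySparse Z ∧
    (∀ (O : Oracle) (g : ℕ → ℕ), Tendsto g atTop atTop → ∃ T : Oracle,
      (∀ q, T q = true → q ∈ Z) ∧
      (∀ n, {q | T q = true ∧ q.length ≤ n}.Finite ∧
        {q | T q = true ∧ q.length ≤ n}.ncard ≤ g n) ∧ X (join O T)) ∧
    ∀ᵐ O ∂randomOracle,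
      (∀ T : Oracle, {q | T q = true}.Finite → ¬ X (join O T)) ∧
      ∀ T : Oracle, (∀ q, T q = true → q ∈ Z) → Hard (join O T)

theorem main2 {X : Oracle → Prop} (hX : ∀ A G, Gd A G → X A)
    (hae : ∀ᵐ A ∂randomOracle, ¬ X A) (hinv : Inv X) : Stmt2 X := by
  obtain ⟨K, hK⟩ := exists_loc
  refine ⟨ZZ K, Pool.Agent.W900.SP.verySparse_ZZ K, fun O g hg => ?_, ?_⟩
  · obtain ⟨T, h1, h2, G, h3⟩ := exists_T2 hK O hg
    exact ⟨T, h1, h2, hX _ G h3⟩
  · filter_upwards [hae, Pool.Agent.W900.SP.ae_hard K] with O h1 h2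
    exact ⟨fun T hT h => h1 (hinv _ _ (fun F => Pool.Agent.W900.SP.isFP_join_finite hT) h), h2⟩

theorem stmt2_npc : Stmt2 HasNPC :=
  main2 (fun _ _ h => has_npc' h) ae_not_npc Pool.Agent.W900.SP.inv_npc

theorem stmt2_up : Stmt2 HasUP :=
  main2 (fun _ _ h => has_up' h) ae_not_up Pool.Agent.W900.SP.inv_up

theorem stmt2_dnp : Stmt2 HasDNP :=
  main2 (fun _ _ h => has_dnp' h) ae_not_dnp Pool.Agent.W900.SP.inv_dnp

theorem stmt2_dconp : Stmt2 HasDCoNP :=
  main2 (fun _ _ h => has_dconp' h) ae_not_dconp Pool.Agent.W900.SP.inv_dconp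

theorem stmt2_tfnp : Stmt2 HasTFNP :=
  main2 (fun _ _ h => has_tfnp' h) ae_not_tfnp Pool.Agent.W900.SP.inv_tfnp

theorem stmt2_opt : Stmt2 HasOpt :=
  main2 (fun _ _ h => hasOpt_of_hasPOptT (has_poptT' h)) ae_not_opt Pool.Agent.W900.SP.inv_opt

theorem stmt2_poptT : Stmt2 HasPOptT :=
  main2 (fun _ _ h => has_poptT' h) ae_not_poptT Pool.Agent.W900.SP.inv_poptT

theorem stmt2_poptS : Stmt2 HasPOptS :=
  main2 (fun _ _ h => has_poptS' h) ae_not_poptS Pool.Agent.W900.SP.inv_poptS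

end Pool.Agent.W900.SQ
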