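import Pool.Agent.H943R5.GC.FinalB

/-!
# Abstract guards for the universal verifier and the universal proof system

This is a variant of `Pool.Agent.H943R5.GC` (helper943 and others) with an arbitrary guard.
-/

set_option autoImplicit false

namespace Pool.Agent.W900.SQ

open Pool.Agent.NPC Pool.Agent.H628R3.RO Pool.Agent.H673R2.OneTT Pool.Agent.H943R5.GC

/-- The guard, with the kind. -/
def Okk (G : ℕ → List Bool → Prop) (κ : ℕ) (z : List Bool) : Prop := kd (zv z) = κ ∧ G κ z

open Classical in
/-- `G` is a guard relative to `A`: it is decidable in polynomial time, it excludes broken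
promises, and it does not exclude the objects that keep their promise. -/
structure Gd (A : Oracle) (G : ℕ → List Bool → Prop) : Prop where
  fp : ∀ κ, IsFP A (fun z => if Okk G κ z then [true] else [])
  nv : ∀ κ z, Okk G κ z → ¬ Viol A (zv z) (zu z) (zm z)
  ok : ∀ v, (∀ u m, Adm v u m → ¬ Viol A v u m) → ∃ p : Polynomial ℕ, ∀ u : List Bool,
    Adm v u (p.eval u.length) ∧ Okk G (kd v) (inst v u (p.eval u.length))

open Classical in
/-- The guarded universal verifier. Here `(unpair y).1` is the instance and `(unpair y).2` the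
witness; if the guard fails, the empty witness is accepted if `dflt` is true. -/
noncomputable def VG (G : ℕ → List Bool → Prop) (A : Oracle) (κ : ℕ) (b dflt : Bool)
    (y : List Bool) : List Bool :=
  if Okk G κ (unpair y).1 then
    (if Ac A (zv (unpair y).1) b (zu (unpair y).1) (zm (unpair y).1) (unpair y).2 then [true]
      else [])
  else if dflt = true ∧ (unpair y).2 = [] then [true] else []

open Classical in
/-- The guarded universal proof system, together with a given proof system `P₀`; `d` is a default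
value. -/
noncomputable def PG (G : ℕ → List Bool → Prop) (A : Oracle) (κ : ℕ) (d : List Bool)
    (P₀ : List Bool → List Bool) (y : List Bool) : List Bool :=
  if y.head? = some true then
    (if Okk G κ y.tail then Out A (zv y.tail) (zu y.tail) (zm y.tail) else d)
  else P₀ y.tail

open Classical in
/-- the verifier, from the guard -/
theorem isFP_VG {G : ℕ → List Bool → Prop} {A : Oracle} (hG : Gd A G) (κ : ℕ) (b dflt : Bool) :
    IsFP A (VG G A κ b dflt) := by
  have h := hG.fp κ
  obtain ⟨F, hF, hFo⟩ := U3.uAF A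
  have h1 : IsFP A (fun y => if Okk G κ (unpair y).1 then [true] else []) :=
    IsFP.comp h (IsFP.of_poly (U3.p1 Poly.id))
  have h2 : IsFP A (fun y => F (U3.qu b (unpair y).1 (unpair y).2)) :=
    IsFP.comp hF (IsFP.of_poly (U3.p_qu b (U3.p1 Poly.id) (U3.p2 Poly.id)))
  have h3 := IsFP.seq (φ := fun p => p.1)
    (ψ := fun p => if p.2.1 = [true] then
        (if (unpair p.1).2.length ≤ zm (unpair p.1).1 then
          (if p.2.2 = [true] then [true] else []) else [])
      else (if dflt = true then (if (unpair p.1).2 = [] then [true] else []) else []))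
    h1 h2 (Poly.fst Poly.id) ?_
  · obtain ⟨M, hM⟩ := h3
    refine ⟨M, fun y => ?_⟩
    rw [hM y]
    congr 1
    dsimp only
    unfold VG
    by_cases hok : Okk G κ (unpair y).1
    · rw [if_pos hok, if_pos hok, if_pos rfl]
      unfold Ac
      rw [hFo]
      by_cases hl : (unpair y).2.length ≤ zm (unpair y).1
      · rw [if_pos hl]
        by_cases hf : F (U3.qu b (unpair y).1 (unpair y).2) = [true]
        · rw [if_pos hf, if_pos ⟨hl, congrArg some hf⟩]
        · rw [if_neg hf, if_neg]
          rintro ⟨_, h4⟩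
          exact hf (Option.some.inj h4)
      · rw [if_neg hl, if_neg (fun h4 => hl h4.1)]
    · rw [if_neg hok, if_neg hok, if_neg (by simp)]
      by_cases hd : dflt = true
      · rw [if_pos hd]
        by_cases hw : (unpair y).2 = []
        · rw [if_pos hw, if_pos ⟨hd, hw⟩]
        · rw [if_neg hw, if_neg (fun h4 => hw h4.2)]
      · rw [if_neg hd, if_neg (fun h4 => hd h4.1)]
  · have e1 : Poly (fun p : List Bool × List Bool × List Bool => p.1) := Poly.fst Poly.id
    have e2 : Poly (fun p : List Bool × List Bool × List Bool => p.2.1) :=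
      Poly.fst (Poly.snd Poly.id)
    have e3 : Poly (fun p : List Bool × List Bool × List Bool => p.2.2) :=
      Poly.snd (Poly.snd Poly.id)
    refine Poly.ite (Poly.decide_eq e2 (NPC.Poly.const _)) ?_ ?_
    · refine Poly.ite (Poly.decide_le (Poly.length (U3.p2 e1)) (U3.u_zm (U3.p1 e1)).toPoly) ?_
        (NPC.Poly.const _)
      exact Poly.ite (Poly.decide_eq e3 (NPC.Poly.const _)) (NPC.Poly.const _) (NPC.Poly.const _)
    · cases dflt
      · simpa using NPC.Poly.const (α := List Bool × List Bool × List Bool) ([] : List Bool)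
      · simp only [if_true]
        exact Poly.ite (Poly.decide_eq (U3.p2 e1) (NPC.Poly.const _)) (NPC.Poly.const _)
          (NPC.Poly.const _)

open Classical in
/-- the proof system, from the guard -/
theorem isFP_PG {G : ℕ → List Bool → Prop} {A : Oracle} (hG : Gd A G) (κ : ℕ) (d : List Bool)
    {P₀ : List Bool → List Bool} (hP : IsFP A P₀) : IsFP A (PG G A κ d P₀) := by
  have h := hG.fp κ
  obtain ⟨F, hF, hFo⟩ := U3.uAF A
  have ht : Poly (fun y : List Bool => y.tail) := Poly.tail Poly.id
  have h1 : IsFP A (fun y => if Okk G κ y.tail then [true] else []) :=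
    IsFP.comp h (IsFP.of_poly ht)
  have h2 : IsFP A (fun y => F (U3.qu false y.tail [])) :=
    IsFP.comp hF (IsFP.of_poly (U3.p_qu false ht (NPC.Poly.const _)))
  have h3 : IsFP A (fun y => if Okk G κ y.tail then Out A (zv y.tail) (zu y.tail) (zm y.tail)
      else d) := by
    have h4 := IsFP.seq (φ := fun p => p.1)
      (ψ := fun p => if p.2.1 = [true] then p.2.2 else d) h1 h2 (Poly.fst Poly.id)
      (Poly.ite (Poly.decide_eq (Poly.fst (Poly.snd Poly.id)) (NPC.Poly.const _))
        (Poly.snd (Poly.snd Poly.id)) (NPC.Poly.const _))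
    obtain ⟨M, hM⟩ := h4
    refine ⟨M, fun y => ?_⟩
    rw [hM y]
    congr 1
    dsimp only
    by_cases hok : Okk G κ y.tail
    · rw [if_pos hok, if_pos hok, if_pos rfl]
      unfold Out
      rw [hFo]
      rfl
    · rw [if_neg hok, if_neg hok, if_neg (by simp)]
  have h5 : IsFP A (fun y => P₀ y.tail) := IsFP.comp hP (IsFP.of_poly ht)
  have h6 := IsFP.seq (φ := fun p => p.1)
    (ψ := fun p => if p.1.head? = some true then p.2.1 else p.2.2) h3 h5 (Poly.fst Poly.id)
    (Poly.ite (Poly.decide_eq (Poly.head? (Poly.fst Poly.id)) (NPC.Poly.const _))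
      (Poly.fst (Poly.snd Poly.id)) (Poly.snd (Poly.snd Poly.id)))
  obtain ⟨M, hM⟩ := h6
  refine ⟨M, fun y => ?_⟩
  rw [hM y]
  rfl

theorem VG_iff (G : ℕ → List Bool → Prop) (A : Oracle) (κ : ℕ) (b dflt : Bool)
    (z w : List Bool) :
    VG G A κ b dflt (pairBits z w) = [true] ↔
      (Okk G κ z ∧ Ac A (zv z) b (zu z) (zm z) w) ∨ (¬ Okk G κ z ∧ dflt = true ∧ w = []) := by
  unfold VG
  rw [unpair_pairBits]
  dsimp only
  by_cases h : Okk G κ z
  · rw [if_pos h]
    by_cases h2 : Ac A (zv z) b (zu z) (zm z) w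
    · rw [if_pos h2]
      simp [h, h2]
    · rw [if_neg h2]
      simp [h, h2]
  · rw [if_neg h]
    by_cases h2 : dflt = true ∧ w = []
    · rw [if_pos h2]
      simp [h, h2]
    · rw [if_neg h2]
      simp [h, h2]

theorem exists_VG_iff (G : ℕ → List Bool → Prop) (A : Oracle) (κ : ℕ) (b dflt : Bool)
    (z : List Bool) :
    (∃ w : List Bool, w.length ≤ z.length ∧ VG G A κ b dflt (pairBits z w) = [true]) ↔
      (Okk G κ z ∧ Ex A (zv z) b (zu z) (zm z)) ∨ (¬ Okk G κ z ∧ dflt = true) := by
  constructor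
  · rintro ⟨w, -, hw⟩
    rcases (VG_iff G A κ b dflt z w).1 hw with ⟨h1, h2⟩ | ⟨h1, h2, -⟩
    · exact Or.inl ⟨h1, w, h2⟩
    · exact Or.inr ⟨h1, h2⟩
  · rintro (⟨h1, w, h2⟩ | ⟨h1, h2⟩)
    · exact ⟨w, le_trans h2.1 (zm_le z), (VG_iff G A κ b dflt z w).2 (Or.inl ⟨h1, h2⟩)⟩
    · exact ⟨[], Nat.zero_le _, (VG_iff G A κ b dflt z []).2 (Or.inr ⟨h1, h2, rfl⟩)⟩

theorem isNP_VG {G : ℕ → List Bool → Prop} {A : Oracle} (hG : Gd A G) (κ : ℕ) (b dflt : Bool) :
    IsNP A {z | (Okk G κ z ∧ Ex A (zv z) b (zu z) (zm z)) ∨ (¬ Okk G κ z ∧ dflt = true)} := by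
  refine ⟨VG G A κ b dflt, Polynomial.X, isFP_VG hG κ b dflt, fun z => ?_⟩
  rw [Polynomial.eval_X, exists_VG_iff]
  rfl

/-! ### The violations of the kinds -/

theorem viol_0 {A : Oracle} {v u : List Bool} {m : ℕ} (hk : kd v = 0) :
    Viol A v u m ↔ ∃ w w', w ≠ w' ∧ Ac A v false u m w ∧ Ac A v false u m w' := by
  unfold Viol
  simp [hk]

theorem viol_1 {A : Oracle} {v u : List Bool} {m : ℕ} (hk : kd v = 1) :
    Viol A v u m ↔ (Ex A v false u m ↔ Ex A v true u m) := by
  unfold Viol
  simp [hk]

theorem viol_2 {A : Oracle} {v u : List Bool} {m : ℕ} (hk : kd v = 2) :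
    Viol A v u m ↔ Ex A v false u m ∧ Ex A v true u m := by
  unfold Viol
  simp [hk]

theorem viol_3 {A : Oracle} {v u : List Bool} {m : ℕ} (hk : kd v = 3) :
    Viol A v u m ↔ ¬ Ex A v false u m ∧ ¬ Ex A v true u m := by
  unfold Viol
  simp [hk]

theorem viol_4 {A : Oracle} {v u : List Bool} {m : ℕ} (hk : kd v = 4) :
    Viol A v u m ↔ ¬ Ex A v false u m := by
  unfold Viol
  simp [hk]

theorem viol_5 {A : Oracle} {v u : List Bool} {m : ℕ} (hk : kd v = 5) :
    Viol A v u m ↔ Out A v u m ∈ KA A := by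
  unfold Viol
  simp [hk]

theorem viol_6 {A : Oracle} {v u : List Bool} {m : ℕ} (hk : kd v = 6) :
    Viol A v u m ↔ Out A v u m ∉ KA A := by
  unfold Viol
  simp [hk]

end Pool.Agent.W900.SQ
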