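import Pool.Agent.W900.SQ.Gd

/-!
# Complete sets and optimal proof systems from guards

This is a variant of `Pool.Agent.H943R5.GC` (helper943 and others) with an arbitrary guard.
-/

set_option autoImplicit false

namespace Pool.Agent.W900.SQ

open Pool.Agent.NPC Pool.Agent.H628R3.RO Pool.Agent.H673R2.OneTT Pool.Agent.H943R5.GC
open Pool.Agent.H543R3.PC (HasNPC HasUP HasDNP HasDCoNP HasTFNP HasOpt HasPOptT HasPOptS)

variable {G : ℕ → List Bool → Prop} {A : Oracle}

/-- acceptance of the instances of a code that keeps its promise -/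
theorem ex_inst {v u : List Bool} {m κ : ℕ} {b dflt : Bool} (hok : Okk G κ (inst v u m)) :
    ((Okk G κ (inst v u m) ∧ Ex A (zv (inst v u m)) b (zu (inst v u m)) (zm (inst v u m))) ∨
      (¬ Okk G κ (inst v u m) ∧ dflt = true)) ↔ Ex A v b u m := by
  rw [zv_inst, zu_inst, zm_inst]
  simp [hok]

theorem has_npc' (hG : Gd A G) : HasNPC A := by
  refine ⟨{z | (Okk G 1 z ∧ Ex A (zv z) false (zu z) (zm z)) ∨ (¬ Okk G 1 z ∧ false = true)},
    isNP_VG hG 1 false false, ?_, ?_⟩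
  · have h1 : ({z | (Okk G 1 z ∧ Ex A (zv z) false (zu z) (zm z)) ∨
        (¬ Okk G 1 z ∧ false = true)} : Set (List Bool))ᶜ =
        {z | (Okk G 1 z ∧ Ex A (zv z) true (zu z) (zm z)) ∨ (¬ Okk G 1 z ∧ true = true)} := by
      ext z
      simp only [Set.mem_compl_iff, Set.mem_ofPred_eq]
      by_cases hok : Okk G 1 z
      · have h := hG.nv _ _ hok
        rw [viol_1 hok.1] at h
        simp only [hok, true_and, not_true_eq_false, false_and, or_false]
        tauto
      · simp [hok]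
    show IsNP A _
    rw [h1]
    exact isNP_VG hG 1 true true
  · rintro L ⟨V₀, p₀, hV₀, hL₀⟩ ⟨V₁, p₁, hV₁, hL₁⟩
    obtain ⟨v, hk, hv⟩ := code_pair A p₀ p₁ hV₀ hV₁ 1
    have e0 : ∀ u m, Adm v u m → (Ex A v false u m ↔ u ∈ L) := by
      intro u m hm
      rw [hL₀ u]
      exact exists_congr fun w => (hv u m hm).1 w
    have e1 : ∀ u m, Adm v u m → (Ex A v true u m ↔ u ∉ L) := by
      intro u m hm
      have h := hL₁ u
      rw [Set.mem_compl_iff] at h
      rw [h]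
      exact exists_congr fun w => (hv u m hm).2 w
    have hviol : ∀ u m, Adm v u m → ¬ Viol A v u m := by
      intro u m hm
      rw [viol_1 hk, e0 u m hm, e1 u m hm]
      tauto
    obtain ⟨p, hp⟩ := hG.ok v hviol
    rw [hk] at hp
    refine ⟨fun u => inst v u (p.eval u.length), isFP_inst A v p, fun u => ?_⟩
    rw [Set.mem_ofPred_eq, ex_inst (hp u).2, e0 u _ (hp u).1]

theorem has_up' (hG : Gd A G) : HasUP A := by
  refine ⟨{z | ∃ w : List Bool, w.length ≤ (Polynomial.X : Polynomial ℕ).eval z.length ∧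
    VG G A 0 false false (pairBits z w) = [true]}, ⟨VG G A 0 false false, Polynomial.X,
      isFP_VG hG 0 false false, fun x => Iff.rfl, fun x w w' _ _ hw hw' => ?_⟩, fun L hL => ?_⟩
  · rw [VG_iff] at hw hw'
    simp only [Bool.false_eq_true, false_and, and_false, or_false] at hw hw'
    by_contra hne
    exact hG.nv _ _ hw.1 ((viol_0 hw.1.1).2 ⟨w, w', hne, hw.2, hw'.2⟩)
  · obtain ⟨V, p, hV, hLV, huniq⟩ := hL
    obtain ⟨v, hv0, hv⟩ := code_pair A p p hV hV 0
    have hnv : ∀ u m, Adm v u m → ¬ Viol A v u m := by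
      intro u m hm hviol
      rw [viol_0 hv0] at hviol
      obtain ⟨w, w', hne, hw, hw'⟩ := hviol
      have h1 := ((hv u m hm).1 w).1 hw
      have h2 := ((hv u m hm).1 w').1 hw'
      exact hne (huniq u w w' h1.1 h2.1 h1.2 h2.2)
    obtain ⟨q, hq⟩ := hG.ok v hnv
    rw [hv0] at hq
    refine ⟨fun u => inst v u (q.eval u.length), isFP_inst A v q, fun u => ?_⟩
    rw [Set.mem_ofPred_eq, Polynomial.eval_X, exists_VG_iff, ex_inst (hq u).2, hLV]
    exact exists_congr fun w => ((hv u _ (hq u).1).1 w).symm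

theorem has_dnp' (hG : Gd A G) : HasDNP A := by
  refine ⟨{z | (Okk G 2 z ∧ Ex A (zv z) false (zu z) (zm z)) ∨ (¬ Okk G 2 z ∧ false = true)},
    {z | (Okk G 2 z ∧ Ex A (zv z) true (zu z) (zm z)) ∨ (¬ Okk G 2 z ∧ false = true)},
    ⟨isNP_VG hG 2 false false, isNP_VG hG 2 true false, ?_⟩, ?_⟩
  · rintro z ⟨h1, h2⟩
    rw [Set.mem_ofPred_eq] at h1 h2
    simp only [Bool.false_eq_true, and_false, or_false] at h1 h2
    exact hG.nv _ _ h1.1 ((viol_2 h1.1.1).2 ⟨h1.2, h2.2⟩)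
  · rintro L₀ L₁ ⟨⟨V₀, p₀, hV₀, hL₀⟩, ⟨V₁, p₁, hV₁, hL₁⟩, hdis⟩
    obtain ⟨v, hκ, hv⟩ := code_pair A p₀ p₁ hV₀ hV₁ 2
    have e0 : ∀ u m, Adm v u m → (Ex A v false u m ↔ u ∈ L₀) := by
      intro u m hm
      rw [hL₀ u]
      exact exists_congr fun w => (hv u m hm).1 w
    have e1 : ∀ u m, Adm v u m → (Ex A v true u m ↔ u ∈ L₁) := by
      intro u m hm
      rw [hL₁ u]
      exact exists_congr fun w => (hv u m hm).2 w
    have hviol : ∀ u m, Adm v u m → ¬ Viol A v u m := by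
      intro u m hm
      rw [viol_2 hκ, e0 u m hm, e1 u m hm]
      exact hdis u
    obtain ⟨p, hp⟩ := hG.ok v hviol
    rw [hκ] at hp
    refine ⟨fun u => inst v u (p.eval u.length), isFP_inst A v p, ?_, ?_⟩
    · intro u hu
      rw [Set.mem_ofPred_eq, ex_inst (hp u).2, e0 u _ (hp u).1]
      exact hu
    · intro u hu
      rw [Set.mem_ofPred_eq, ex_inst (hp u).2, e1 u _ (hp u).1]
      exact hu

theorem has_dconp' (hG : Gd A G) : HasDCoNP A := by
  refine ⟨{z | (Okk G 3 z ∧ Ex A (zv z) false (zu z) (zm z)) ∨ (¬ Okk G 3 z ∧ true = true)}ᶜ,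
    {z | (Okk G 3 z ∧ Ex A (zv z) true (zu z) (zm z)) ∨ (¬ Okk G 3 z ∧ true = true)}ᶜ,
    ⟨?_, ?_, ?_⟩, ?_⟩
  · unfold IsCoNP
    rw [compl_compl]
    exact isNP_VG hG 3 false true
  · unfold IsCoNP
    rw [compl_compl]
    exact isNP_VG hG 3 true true
  · rintro z ⟨h1, h2⟩
    rw [Set.mem_compl_iff, Set.mem_ofPred_eq, not_or] at h1 h2
    have hok : Okk G 3 z := by
      by_contra h
      exact h1.2 ⟨h, rfl⟩
    exact hG.nv _ _ hok ((viol_3 hok.1).2 ⟨fun h => h1.1 ⟨hok, h⟩, fun h => h2.1 ⟨hok, h⟩⟩)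
  · rintro L₀ L₁ ⟨⟨V₀, p₀, hV₀, h0⟩, ⟨V₁, p₁, hV₁, h1⟩, hd⟩
    obtain ⟨v, hκ, hv⟩ := code_pair A p₀ p₁ hV₀ hV₁ 3
    have e0 : ∀ u m, Adm v u m → (Ex A v false u m ↔ u ∉ L₀) := by
      intro u m hm
      have h := h0 u
      rw [Set.mem_compl_iff] at h
      rw [h]
      exact exists_congr fun w => (hv u m hm).1 w
    have e1 : ∀ u m, Adm v u m → (Ex A v true u m ↔ u ∉ L₁) := by
      intro u m hm
      have h := h1 u
      rw [Set.mem_compl_iff] at h
      rw [h]
      exact exists_congr fun w => (hv u m hm).2 w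
    have hviol : ∀ u m, Adm v u m → ¬ Viol A v u m := by
      intro u m hm
      rw [viol_3 hκ, e0 u m hm, e1 u m hm, not_not, not_not]
      exact hd u
    obtain ⟨p, hp⟩ := hG.ok v hviol
    rw [hκ] at hp
    refine ⟨fun u => inst v u (p.eval u.length), isFP_inst A v p, ?_, ?_⟩
    · intro u hu
      rw [Set.mem_compl_iff, Set.mem_ofPred_eq, ex_inst (hp u).2, e0 u _ (hp u).1, not_not]
      exact hu
    · intro u hu
      rw [Set.mem_compl_iff, Set.mem_ofPred_eq, ex_inst (hp u).2, e1 u _ (hp u).1, not_not]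
      exact hu

theorem has_tfnp' (hG : Gd A G) : HasTFNP A := by
  refine ⟨fun z w => w.length ≤ (Polynomial.X : Polynomial ℕ).eval z.length ∧
    VG G A 4 false true (pairBits z w) = [true],
    ⟨⟨_, _, isFP_VG hG 4 false true, fun _ _ => Iff.rfl⟩, ?_⟩, ?_⟩
  · intro z
    dsimp only
    rw [Polynomial.eval_X, exists_VG_iff]
    by_cases hz : Okk G 4 z
    · left
      refine ⟨hz, ?_⟩
      by_contra h
      exact hG.nv _ _ hz ((viol_4 hz.1).2 h)
    · exact Or.inr ⟨hz, rfl⟩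
  · rintro S ⟨⟨V, p, hV, hS⟩, htot⟩
    obtain ⟨v, hkd, hv⟩ := code_pair A p p hV hV 4
    have hviol : ∀ u m, Adm v u m → ¬ Viol A v u m := by
      intro u m hm
      rw [viol_4 hkd, not_not]
      obtain ⟨w, hw⟩ := htot u
      exact ⟨w, ((hv u m hm).1 w).2 ((hS u w).1 hw)⟩
    obtain ⟨q, hq⟩ := hG.ok v hviol
    rw [hkd] at hq
    refine ⟨fun u => inst v u (q.eval u.length), fun t => (unpair t).2, isFP_inst A v q,
      IsFP.of_poly poly_unpair.snd, ?_⟩
    rintro x y ⟨_, hy⟩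
    simp only [unpair_pairBits]
    rw [VG_iff, zv_inst, zu_inst, zm_inst] at hy
    rcases hy with ⟨_, hy⟩ | ⟨hy, _⟩
    · exact (hS x y).2 (((hv x _ (hq x).1).1 y).1 hy)
    · exact absurd (hq x).2 hy

theorem has_poptT' (hG : Gd A G) : HasPOptT A := by
  obtain ⟨P₀, hP₀, hr₀⟩ := exists_psT A
  refine ⟨(KA A)ᶜ, KPT.isCoNP_compl A, KPT.hard_compl A, PG G A 5 (P₀ []) P₀,
    ⟨isFP_PG hG _ _ hP₀, ?_⟩, ?_⟩
  · apply Set.Subset.antisymm
    · rintro x ⟨y, rfl⟩
      unfold PG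
      split_ifs with h1 h2
      · intro hx
        exact hG.nv _ _ h2 ((viol_5 h2.1).2 hx)
      · rw [← hr₀]
        exact Set.mem_range_self _
      · rw [← hr₀]
        exact Set.mem_range_self _
    · intro x hx
      rw [← hr₀] at hx
      obtain ⟨y, rfl⟩ := hx
      refine ⟨false :: y, ?_⟩
      unfold PG
      rw [if_neg (by simp)]
      rfl
  · rintro Q ⟨hQ, hrQ⟩
    obtain ⟨v, hk, hv⟩ := code_fn A hQ 5
    obtain ⟨p, hp⟩ := hG.ok v (fun u m h => KPT.no_viol hrQ hk hv u m h)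
    rw [hk] at hp
    refine ⟨fun u => true :: inst v u (p.eval u.length), ?_, fun u => ?_⟩
    · exact IsFP.comp (G := fun z => true :: z)
        (IsFP.of_poly (Poly.cons (NPC.Poly.const true) Poly.id)) (isFP_inst A v p)
    · unfold PG
      rw [if_pos (by simp), List.tail_cons, if_pos (hp u).2, zv_inst, zu_inst, zm_inst]
      exact hv u _ (hp u).1

theorem has_poptS' (hG : Gd A G) : HasPOptS A := by
  obtain ⟨P₀, hP₀, hr₀⟩ := exists_psS A
  refine ⟨KA A, isNP_KA A, hard_KA A, PG G A 6 (P₀ []) P₀,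
    ⟨isFP_PG hG _ _ hP₀, ?_⟩, fun Q hQ => ?_⟩
  · apply Set.Subset.antisymm
    · rintro _ ⟨y, rfl⟩
      unfold PG
      split_ifs with h1 h2
      · by_contra hx
        exact hG.nv _ _ h2 ((viol_6 h2.1).2 hx)
      · exact hr₀ ▸ Set.mem_range_self _
      · exact hr₀ ▸ Set.mem_range_self _
    · intro x hx
      rw [← hr₀] at hx
      obtain ⟨t, rfl⟩ := hx
      refine ⟨false :: t, ?_⟩
      unfold PG
      simp
  · obtain ⟨v, hk, hv⟩ := code_fn A hQ.1 6
    have hnv : ∀ u m, Adm v u m → ¬ Viol A v u m := by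
      intro u m hm
      rw [viol_6 hk, not_not, hv u m hm, ← hQ.2]
      exact Set.mem_range_self u
    obtain ⟨q, hq⟩ := hG.ok v hnv
    rw [hk] at hq
    refine ⟨fun u => true :: inst v u (q.eval u.length),
      IsFP.comp (G := fun y => true :: y) (IsFP.of_poly (Poly.cons (NPC.Poly.const true) Poly.id))
        (isFP_inst A v q), fun u => ?_⟩
    unfold PG
    rw [if_pos (by simp), List.tail_cons, if_pos (hq u).2, zv_inst, zu_inst, zm_inst]
    exact hv u _ (hq u).1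

end Pool.Agent.W900.SQ
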