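import Pool.Agent.W900.SQ.Has
import Pool.Agent.W900.SP.Fin

/-!
# Planting announcements and signatures according to a schedule
-/

set_option autoImplicit false

namespace Pool.Agent.W900.SQ

open Pool.Agent.NPC Pool.Agent.H628R3.RO Pool.Agent.H673R2.OneTT Pool.Agent.H943R5.GC
open Pool.Agent.W900.SP (join Sub ZZ YY_cons mem_ZZ_of_YY)

/-! ### The general construction -/

open Classical in
/-- the oracles of the construction: the strings of length less than `n` are final -/
noncomputable def PL {ι : Type} (pos : ι → List Bool) (Kl : Oracle → ι → Prop) (B : Oracle) :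
    ℕ → Oracle
  | 0 => B
  | n + 1 => fun y => if y.length = n ∧ ∃ c, pos c = y then
      decide (∃ c, pos c = y ∧ Kl (PL pos Kl B n) c) else PL pos Kl B n y

open Classical in
theorem PL_succ {ι : Type} (pos : ι → List Bool) (Kl : Oracle → ι → Prop) (B : Oracle) (n : ℕ)
    (y : List Bool) : PL pos Kl B (n + 1) y = if y.length = n ∧ ∃ c, pos c = y then
      decide (∃ c, pos c = y ∧ Kl (PL pos Kl B n) c) else PL pos Kl B n y := rfl

/-- the limit -/
noncomputable def PH {ι : Type} (pos : ι → List Bool) (Kl : Oracle → ι → Prop) (B : Oracle) :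
    Oracle := fun y => PL pos Kl B (y.length + 1) y

theorem PL_high {ι : Type} {pos : ι → List Bool} {Kl : Oracle → ι → Prop} {B : Oracle}
    {y : List Bool} : ∀ {m : ℕ}, y.length < m → PL pos Kl B m y = PH pos Kl B y := by
  intro m
  induction m with
  | zero => intro h; omega
  | succ m ih =>
    intro h
    rcases Nat.lt_succ_iff_lt_or_eq.1 h with h1 | h1
    · rw [← ih h1, PL_succ, if_neg]
      rintro ⟨h2, -⟩
      omega
    · unfold PH
      rw [h1]

theorem PL_low {ι : Type} {pos : ι → List Bool} {Kl : Oracle → ι → Prop} {B : Oracle}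
    {y : List Bool} (hy : ∀ c, pos c ≠ y) (m : ℕ) : PL pos Kl B m y = B y := by
  induction m with
  | zero => rfl
  | succ m ih =>
    rw [PL_succ, if_neg, ih]
    rintro ⟨-, c, hc⟩
    exact hy c hc

/-- The general construction: an oracle that records a local property of itself at given
positions. -/
theorem plant {ι : Type} (pos : ι → List Bool) (hpos : Function.Injective pos)
    (Kl : Oracle → ι → Prop)
    (hloc : ∀ c (A A' : Oracle), (∀ y : List Bool, y.length < (pos c).length → A y = A' y) →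
      Kl A c → Kl A' c) (B : Oracle) :
    ∃ A : Oracle, (∀ c, A (pos c) = true ↔ Kl A c) ∧ ∀ y, (∀ c, pos c ≠ y) → A y = B y := by
  refine ⟨PH pos Kl B, fun c => ?_, fun y hy => PL_low hy _⟩
  have h1 : ∀ y : List Bool, y.length < (pos c).length →
      PL pos Kl B (pos c).length y = PH pos Kl B y := fun y hy => PL_high hy
  have h2 : PH pos Kl B (pos c) = true ↔ ∃ c', pos c' = pos c ∧
      Kl (PL pos Kl B (pos c).length) c' := by
    classical
    unfold PH
    rw [PL_succ, if_pos ⟨rfl, c, rfl⟩]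
    exact decide_eq_true_iff
  rw [h2]
  constructor
  · rintro ⟨c', h3, h4⟩
    obtain rfl := hpos h3
    exact hloc _ _ _ h1 h4
  · intro h
    exact ⟨c, rfl, hloc _ _ _ (fun y hy => (h1 y hy).symm) h⟩

/-! ### The schedule -/

/-- The code `v` is killed at round `s`. -/
def kl (ρ : List Bool → ℕ) (A : Oracle) (v : List Bool) (s : ℕ) : Prop :=
  ρ v ≤ s ∧ Bad A v s ∧ ∀ s' < s, ρ v ≤ s' → ¬ Bad A v s'

theorem act_mono {v : List Bool} {s s' : ℕ} (h : s ≤ s') (ha : act v s) : act v s' := by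
  unfold act at ha ⊢
  have h1 := (U5.length_st s).1
  have h2 := (U5.length_st s').2
  have h3 : 2 ^ (st s).length < 2 ^ ((st s').length + 1) := by omega
  have h4 := (Nat.pow_lt_pow_iff_right (by norm_num : 1 < 2)).1 h3
  omega

/-- `A` has the announcements and the signatures for the schedule `ρ`. -/
structure Pl (K : ℕ) (ρ : List Bool → ℕ) (A : Oracle) : Prop where
  ki : ∀ v s, A (YY K v s 0) = true ↔ kl ρ A v s
  an : ∀ v s, A (YY K v s 1) = true ↔ s = ρ v

theorem two_le_LL (v : List Bool) (s : ℕ) : 2 ≤ LL v s := by unfold LL; omega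

theorem exists_pl {K : ℕ} (hK : Loc K Bad) {ρ : List Bool → ℕ} (hρ : ∀ v, act v (ρ v))
    (O : Oracle) : ∃ T : Oracle, Pl K ρ (join O T) ∧ ∀ q, T q = true →
      (∃ v s, true :: q = YY K v s 0 ∧ kl ρ (join O T) v s) ∨
      ∃ v, true :: q = YY K v (ρ v) 1 := by
  classical
  obtain ⟨A, h1, h2⟩ := plant (ι := List Bool × ℕ) (fun c => YY K c.1 c.2 0)
    (fun c c' h => by
      obtain ⟨h3, h4, -⟩ := N2.YY_inj2 h
      exact Prod.ext h3 h4) (fun A c => kl ρ A c.1 c.2) (by
      rintro ⟨v, s⟩ A A' hA ⟨h3, h4, h5⟩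
      replace hA : ∀ y : List Bool, y.length < (YY K v s 0).length → A y = A' y := hA
      have h6 : TT (s + K) ≤ (YY K v s 0).length := N2.le_length_YY K v s 0
      have ha : act v s := act_mono h3 (hρ v)
      refine ⟨h3, hK v s ha A A' (fun y hy => hA y (by omega)) h4, fun s' hs' h7 h8 => ?_⟩
      refine h5 s' hs' h7 (hK v s' (act_mono h7 (hρ v)) A' A (fun y hy => (hA y ?_).symm) h8)
      have h9 : TT (s' + K) ≤ TT (s + K) := N2.TT_mono (by omega)
      omega) (join O (fun q => decide (∃ v, true :: q = YY K v (ρ v) 1)))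
  have hne : ∀ (q : List Bool) (c : List Bool × ℕ), YY K c.1 c.2 0 ≠ false :: q := by
    intro q c h
    obtain ⟨q', hq⟩ := YY_cons K c.1 c.2 0
    rw [hq] at h
    simp at h
  have hj : join O (fun q => A (true :: q)) = A := by
    funext y
    rcases y with _ | ⟨b, q⟩
    · rw [h2]
      · rfl
      · intro c h
        obtain ⟨q', hq⟩ := YY_cons K c.1 c.2 0
        rw [hq] at h
        simp at h
    · cases b with
      | true => rfl
      | false =>
        rw [h2 _ (fun c => hne q c)]
        rfl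
  refine ⟨fun q => A (true :: q), ?_, ?_⟩
  · rw [hj]
    refine ⟨fun v s => h1 (v, s), fun v s => ?_⟩
    rw [h2]
    · obtain ⟨q, hq⟩ := YY_cons K v s 1
      rw [hq]
      show decide (∃ v, true :: q = YY K v (ρ v) 1) = true ↔ _
      rw [decide_eq_true_iff, ← hq]
      constructor
      · rintro ⟨v', h⟩
        obtain ⟨rfl, rfl, -⟩ := N2.YY_inj2 h
        rfl
      · rintro rfl
        exact ⟨v, rfl⟩
    · rintro c h
      obtain ⟨-, -, h3⟩ := N2.YY_inj2 h
      omega
  · intro q hq
    rw [hj]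
    by_cases hc : ∃ c : List Bool × ℕ, YY K c.1 c.2 0 = true :: q
    · obtain ⟨c, hc⟩ := hc
      left
      refine ⟨c.1, c.2, hc.symm, (h1 c).1 ?_⟩
      show A (YY K c.1 c.2 0) = true
      rw [hc]
      exact hq
    · right
      push Not at hc
      replace hq : A (true :: q) = true := hq
      rw [h2 _ hc] at hq
      exact decide_eq_true_iff.1 hq

/-! ### The guard -/

/-- there is no signature -/
def PK (K : ℕ) (A : Oracle) (z : List Bool) : Prop :=
  ∀ s ≤ rd (zm z), A (YY K (zv z) s 0) = false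

/-- there is an announcement -/
def PA (K : ℕ) (A : Oracle) (z : List Bool) : Prop :=
  ∃ s ≤ rd (zm z), A (YY K (zv z) s 1) = true

/-- the instance is valid -/
def PV (κ : ℕ) (z : List Bool) : Prop :=
  kd (zv z) = κ ∧ act (zv z) (rd (zm z)) ∧ Adm (zv z) (zu z) (zm z)

/-- the guard -/
def GR (K : ℕ) (A : Oracle) (κ : ℕ) (z : List Bool) : Prop := PV κ z ∧ PK K A z ∧ PA K A z

/-- the questions -/
noncomputable def qs (K i : ℕ) (z : List Bool) : List (List Bool) :=
  (U2B.rounds z).map (fun s => U2B.yy K z s i)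

theorem poly_qs (K i : ℕ) : Poly (qs K i) := by
  unfold qs
  exact NPC.Poly.map (F := fun z s => U2B.yy K z s i) U2B.p_rounds
    (U2B.p_yy K (Poly.fst Poly.id) (Poly.snd Poly.id) (NPC.Poly.const i))

theorem mem_qs {K i : ℕ} {z : List Bool} (hi : i < 2) {q : List Bool} :
    q ∈ qs K i z ↔ ∃ s ≤ rd (zm z), YY K (zv z) s i = q := by
  unfold qs
  rw [List.mem_map]
  constructor
  · rintro ⟨s, hs, rfl⟩
    have hs' := U2B.mem_rounds.1 hs
    exact ⟨s, hs', (U2B.yy_eq hs' (hi.trans_le (two_le_LL _ _))).symm⟩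
  · rintro ⟨s, hs, rfl⟩
    exact ⟨s, U2B.mem_rounds.2 hs, U2B.yy_eq hs (hi.trans_le (two_le_LL _ _))⟩

open Classical in
theorem isFP_k (K : ℕ) (A : Oracle) : IsFP A (fun z => if PK K A z then [true] else []) := by
  unfold PK
  have h := IsFP.tt (A := A) (poly_qs K 0)
    (H := fun p : List Bool × List Bool => if p.2.all (fun b => !b) then [true] else [])
    (Poly.ite (Poly.decide_bool (Poly.all (p := fun (_ : List Bool × List Bool) b => !b)
      (Poly.snd Poly.id) (Poly.not (Poly.snd Poly.id)))) (NPC.Poly.const _) (NPC.Poly.const _))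
  convert h using 3 with z
  simp only [List.all_map, List.all_eq_true, mem_qs (by norm_num : 0 < 2), Function.comp]
  constructor
  · rintro h1 q ⟨s, hs, rfl⟩
    rw [h1 s hs]
    rfl
  · intro h1 s hs
    have h2 := h1 _ ⟨s, hs, rfl⟩
    simpa using h2

open Classical in
theorem isFP_a (K : ℕ) (A : Oracle) : IsFP A (fun z => if PA K A z then [true] else []) := by
  unfold PA
  have h := IsFP.tt (A := A) (poly_qs K 1)
    (H := fun p : List Bool × List Bool => if p.2.any (fun b => b) then [true] else [])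
    (Poly.ite (Poly.decide_bool (Poly.any (p := fun (_ : List Bool × List Bool) b => b)
      (Poly.snd Poly.id) (Poly.snd Poly.id))) (NPC.Poly.const _) (NPC.Poly.const _))
  convert h using 3 with z
  simp only [List.any_map, List.any_eq_true, mem_qs (by norm_num : 1 < 2), Function.comp]
  constructor
  · rintro ⟨s, hs, h1⟩
    exact ⟨_, ⟨s, hs, rfl⟩, h1⟩
  · rintro ⟨q, ⟨s, hs, rfl⟩, h1⟩
    exact ⟨s, hs, h1⟩

open Classical in
theorem isFP_and {A : Oracle} {P Q R : List Bool → Prop} (hR : ∀ z, R z ↔ P z ∧ Q z)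
    (hP : IsFP A (fun z => if P z then [true] else []))
    (hQ : IsFP A (fun z => if Q z then [true] else [])) :
    IsFP A (fun z => if R z then [true] else []) := by
  have h := IsFP.seq (φ := fun p => p.1)
    (ψ := fun p => if p.2.1 = [true] ∧ p.2.2 = [true] then [true] else []) hP hQ (Poly.fst Poly.id)
    (Poly.ite (Poly.decide_and (Poly.decide_eq (Poly.fst (Poly.snd Poly.id)) (NPC.Poly.const _))
      (Poly.decide_eq (Poly.snd (Poly.snd Poly.id)) (NPC.Poly.const _))) (NPC.Poly.const _)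
      (NPC.Poly.const _))
  obtain ⟨M, hM⟩ := h
  refine ⟨M, fun z => ?_⟩
  rw [hM z]
  by_cases h1 : P z <;> by_cases h2 : Q z <;> simp [h1, h2, hR z]

open Classical in
theorem isFP_GR (K : ℕ) (A : Oracle) (κ : ℕ) :
    IsFP A (fun z => if Okk (GR K A) κ z then [true] else []) := by
  have h0 : IsFP A (fun z => if PV κ z then [true] else []) := by
    unfold PV
    convert IsFP.of_poly (A := A) (poly_valid κ)
  have h1 : IsFP A (fun z => if PK K A z ∧ PA K A z then [true] else []) := by
    convert isFP_and (R := fun z => PK K A z ∧ PA K A z) (fun z => Iff.rfl) (isFP_k K A)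
      (isFP_a K A)
  refine isFP_and (Q := fun z => PK K A z ∧ PA K A z) (fun z => ?_) h0 (by convert h1)
  unfold Okk GR PV
  tauto

theorem le_TT (s : ℕ) : s + 1 ≤ TT s := by
  unfold TT tw
  have h1 : s < 2 ^ s := Nat.lt_two_pow_self
  have h2 : 2 ^ s < 2 ^ (2 ^ s) := Nat.lt_two_pow_self
  omega

theorem TT_le_iff {a b : ℕ} : TT a ≤ TT b ↔ a ≤ b := by
  unfold TT tw
  rw [Nat.pow_le_pow_iff_right (by norm_num), Nat.pow_le_pow_iff_right (by norm_num)]

/-- the guard has the required properties -/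
theorem gd_of_pl {K : ℕ} {ρ : List Bool → ℕ} (hρ : ∀ v, act v (ρ v)) {A : Oracle}
    (h : Pl K ρ A) : Gd A (GR K A) := by
  classical
  refine ⟨isFP_GR K A, ?_, ?_⟩
  · rintro κ z ⟨-, ⟨-, -, hadm⟩, hk, s₁, hs₁, ha⟩ hv
    obtain rfl := (h.an _ _).1 ha
    have hB : ∃ s, ρ (zv z) ≤ s ∧ Bad A (zv z) s :=
      ⟨rd (zm z), hs₁, zu z, zm z, U5.le_TT_rd _, hadm, hv⟩
    have h1 := Nat.find_spec hB
    have h2 : Nat.find hB ≤ rd (zm z) :=
      Nat.find_min' hB ⟨hs₁, zu z, zm z, U5.le_TT_rd _, hadm, hv⟩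
    have h3 := (h.ki (zv z) (Nat.find hB)).2
      ⟨h1.1, h1.2, fun s' hs' h4 h5 => Nat.find_min hB hs' ⟨h4, h5⟩⟩
    rw [hk _ h2] at h3
    simp at h3
  · intro v hv
    refine ⟨(Polynomial.X + Polynomial.C 2) ^ (2 ^ ex v) + Polynomial.C (TT (ρ v)), fun u => ?_⟩
    simp only [Polynomial.eval_add, Polynomial.eval_pow, Polynomial.eval_X, Polynomial.eval_C]
    have hadm : Adm v u ((u.length + 2) ^ 2 ^ ex v + TT (ρ v)) := by
      unfold Adm tw
      exact Nat.le_add_right _ _
    have hr : ρ v ≤ rd ((u.length + 2) ^ 2 ^ ex v + TT (ρ v)) := by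
      rw [← TT_le_iff]
      exact (Nat.le_add_left _ _).trans (U5.le_TT_rd _)
    refine ⟨hadm, ?_⟩
    unfold Okk GR PV PK PA
    rw [zv_inst, zu_inst, zm_inst]
    refine ⟨rfl, ⟨rfl, act_mono hr (hρ v), hadm⟩, fun s _ => ?_, ρ v, hr, (h.an _ _).2 rfl⟩
    rw [Bool.eq_false_iff]
    intro h1
    obtain ⟨-, ⟨u', m', -, h4, h5⟩, -⟩ := (h.ki v s).1 h1
    exact hv u' m' h4 h5

end Pool.Agent.W900.SQ
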